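import Pool.Agent.Helper13.FQ.CfNI
import Pool.Agent.Helper11.FQ.CfLF

/-!
# Project FQ (MP_0f6f3f_an), layer INS: the field `ins` for the configuration, final form

`Cf.ins_cf`: no hypotheses besides the configuration, the matching and `DD`.
-/

set_option autoImplicit false
set_option linter.unusedSectionVars false

open MeasureTheory Filter Topology Matrix

namespace Pool.Agent.Helper13.FQ

open Pool.Agent.Helper84.NI Pool.Agent.Helper84.GVN Pool.Agent.Helper90.RK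
open Pool.Agent.Helper84.GN hiding toReg
open Pool.Agent.Helper96.RK Pool.Agent.Helper66.FR Pool.Agent.Helper84.FR Pool.Agent.Helper96.FR Pool.Agent.Helper55.FR
open Pool.Agent.Helper35.NI Pool.Agent.Helper20.FQ Pool.Agent.Helper7.NI
open Pool.Agent.Helper45.FQ (pE)
open Pool.Agent.Helper78.BM (FullE)
open Pool.Agent.Helper85.KL (nr)
open Pool.Agent.Helper52.FQ (DD)
open Pool.Agent.Helper84.GDL (GD)
open Pool.Agent.Helper55.FQ (gG gp wn Mt Cf Gr)
open Pool.Agent.Helper35.TZ (autC isAdj_autC lcs_autC)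

variable {L L' : Type} [LieRing L] [LieAlgebra ℝ L] [LieRing L'] [LieAlgebra ℝ L'] {N N' : ℕ} {r : ℕ}
  {θ : L ≃ₗ⁅ℝ⁆ L} {θ' : L' ≃ₗ⁅ℝ⁆ L'} {b : Module.Basis (Fin N) ℝ L} {b' : Module.Basis (Fin N') ℝ L'}
  {A : Submodule ℝ L} {A' : Submodule ℝ L'} {τ : Module.Dual ℝ A ≃ₗ[ℝ] A} {τ' : Module.Dual ℝ A' ≃ₗ[ℝ] A'}
  {al : Fin r → Module.Dual ℝ A} {al' : Fin r → Module.Dual ℝ A'} {W : Fin r → A} {W' : Fin r → A'}
  {D : GD (autC b) (Fin r)} {D' : GD (autC b') (Fin r)} [MeasurableSpace (autC b)] [BorelSpace (autC b)]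
  {Γ : Subgroup (autC b)} {Λ : Subgroup (autC b')} [Countable Γ] [Countable Λ]
  {X : Type} [MeasurableSpace X] [MulAction (autC b) X] [MeasurableConstSMul (autC b) X] {μ : Measure X}
  [SMulInvariantMeasure (autC b) X μ] [IsProbabilityMeasure μ] {a : Cocy (autC b) X Γ} {E : Emb Γ Λ} {hm : Measure (autC b)} {σ : X → autC b}

/-- **The field `ins` for the configuration.** -/
theorem Cf.ins_cf (C : Cf θ θ' A A' τ τ' al al' W W' D D' μ a E) {s : Fin r → Fin r} (ht : Mt μ a E D D' C.hf' s)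
    (u : Fin r) (hD : DD μ a E (D.ea (Pi.single u 1)) Γ.subtype hm σ) :
    ∀ ε > 0, ∃ L C₁ : ℝ, ∀ b, L ≤ (gp D' Λ C.hf').gap b (s u) →
      ∑' l, pE E l b * Pool.Agent.Helper17.FQ.th μ a E (D.ea (Pi.single u 1)) l {b' | ¬ nr (gp D' Λ C.hf').gap (s u) C₁ b b'} ≤ ε := by
  have hd : DiscreteTopology Λ := C.lat'.1
  exact Cf.ins C ht u hD (Pool.Agent.Helper11.FQ.Cf.lfr_nd C C.G'.low u (s u) atTop) (Pool.Agent.Helper11.FQ.Cf.lfl_nd C C.G'.low u (s u) atTop)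

end Pool.Agent.Helper13.FQ
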