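import Pool.Agent.Helper13.FQ.InsG
import Pool.Agent.Helper7.NI.Inst
import Pool.Agent.Helper20.FQ.Opp

/-!
# Project FQ (MP_0f6f3f_an), layer INS: the hypothesis `Geo2` for the data of a lattice

`hs_lo`, `hs_hi`: `exp(2 tw l g) ≤ hs (rho l g) ≤ (d + 1) exp(2 tw l g)`. `geo2`: no cancellation in `b h` (`tw_right`) in terms of the Hilbert–Schmidt norms.
-/

set_option autoImplicit false
set_option linter.unusedSectionVars false

open MeasureTheory Filter Topology Matrix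

namespace Pool.Agent.Helper13.FQ

open Pool.Agent.Helper20.TB Pool.Agent.Helper84.GDL Pool.Agent.Helper35.NI Pool.Agent.Helper7.NI

variable {𝔾 : Type} [Group 𝔾] [TopologicalSpace 𝔾] {ι : Type} [Fintype ι] [DecidableEq ι] (D : GD 𝔾 ι)

theorem hs_rho (l : ι) (g : 𝔾) : hs (D.rho l g) = ∑ k, dv D l g k ^ 2 := by
  rw [rho_eq D l g, hs_ldr (orthL D l g) (orthR D l g)]

theorem hs_lo (l : ι) (g : 𝔾) : Real.exp (2 * D.tw l g) ≤ hs (D.rho l g) := by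
  rw [hs_rho, mul_comm, Real.exp_mul, Real.rpow_two, ← dv_zero]
  exact Finset.single_le_sum (f := fun k => dv D l g k ^ 2) (fun k _ => sq_nonneg _) (Finset.mem_univ 0)

theorem hs_hi (l : ι) (g : 𝔾) : hs (D.rho l g) ≤ ((D.d l + 1 : ℕ) : ℝ) * Real.exp (2 * D.tw l g) := by
  rw [hs_rho, mul_comm 2, Real.exp_mul, Real.rpow_two, ← dv_zero]
  have h3 : ∑ k, dv D l g k ^ 2 ≤ ∑ _k : Fin (D.d l + 1), dv D l g 0 ^ 2 :=
    Finset.sum_le_sum fun k _ => pow_le_pow_left₀ (dv_pos D l g k).le (dv_le' D l g k) 2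
  rwa [Finset.sum_const, Finset.card_univ, Fintype.card_fin, nsmul_eq_mul] at h3

theorem opp_eq (j : ι) (b h : 𝔾) : D.opp j b h = ∑ i, D.xv j b i * D.yv j h i := by
  unfold GD.opp GD.xv GD.yv
  rw [map_mul, Matrix.mul_apply]

/-- From the sizes `tw` to the Hilbert–Schmidt norms. -/
theorem hs_of_tw {R : ℝ} {l : ι} {b h : 𝔾} (H : D.tw l b + D.tw l h ≤ D.tw l (b * h) + R) :
    ((((D.d l + 1 : ℕ) : ℝ)) ^ 2 * Real.exp (2 * R))⁻¹ * (hs (D.rho l b) * hs (D.rho l h)) ≤ hs (D.rho l (b * h)) := by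
  have h0 : (0 : ℝ) < ((D.d l + 1 : ℕ) : ℝ) := by positivity
  rw [inv_mul_le_iff₀ (by positivity)]
  calc hs (D.rho l b) * hs (D.rho l h)
      ≤ (((D.d l + 1 : ℕ) : ℝ) * Real.exp (2 * D.tw l b)) * (((D.d l + 1 : ℕ) : ℝ) * Real.exp (2 * D.tw l h)) :=
        mul_le_mul (hs_hi D l b) (hs_hi D l h) ((Real.exp_pos _).le.trans (hs_lo D l h)) (by positivity)
    _ = (((D.d l + 1 : ℕ) : ℝ)) ^ 2 * Real.exp (2 * D.tw l b + 2 * D.tw l h) := by
        rw [Real.exp_add]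
        ring
    _ ≤ (((D.d l + 1 : ℕ) : ℝ)) ^ 2 * Real.exp (2 * R + 2 * D.tw l (b * h)) :=
        mul_le_mul_of_nonneg_left (Real.exp_le_exp.2 (by linarith)) (by positivity)
    _ = (((D.d l + 1 : ℕ) : ℝ)) ^ 2 * Real.exp (2 * R) * Real.exp (2 * D.tw l (b * h)) := by
        rw [Real.exp_add]
        ring
    _ ≤ _ := mul_le_mul_of_nonneg_left (hs_lo D l _) (by positivity)

/-- A constant for all the representations. -/
theorem hs_of_tw' {R : ℝ} {b h : 𝔾} (H : ∀ l, D.tw l b + D.tw l h ≤ D.tw l (b * h) + R) (l : ι) :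
    (((∑ l, (D.d l + 1 : ℕ) : ℕ) : ℝ) ^ 2 * Real.exp (2 * R))⁻¹ * (hs (D.rho l b) * hs (D.rho l h)) ≤ hs (D.rho l (b * h)) := by
  refine le_trans ?_ (hs_of_tw D (H l))
  have h0 : (0 : ℝ) < ((D.d l + 1 : ℕ) : ℝ) := by positivity
  have h1 : ((D.d l + 1 : ℕ) : ℝ) ≤ ((∑ l, (D.d l + 1 : ℕ) : ℕ) : ℝ) := by
    exact_mod_cast Finset.single_le_sum (f := fun l => D.d l + 1) (fun _ _ => Nat.zero_le _) (Finset.mem_univ l)
  have h2 : 0 ≤ hs (D.rho l b) * hs (D.rho l h) :=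
    mul_nonneg ((Real.exp_pos _).le.trans (hs_lo D l b)) ((Real.exp_pos _).le.trans (hs_lo D l h))
  refine mul_le_mul_of_nonneg_right ?_ h2
  refine inv_anti₀ (by positivity) ?_
  exact mul_le_mul_of_nonneg_right (pow_le_pow_left₀ h0.le h1 2) (Real.exp_pos _).le

/-- **`Geo2` for a lattice.** -/
theorem geo2 [IsTopologicalGroup 𝔾] [T2Space 𝔾] (Γ : Subgroup 𝔾) [DiscreteTopology Γ]
    (h1 : ∀ l, ∃ i, ∀ j, D.n l i j = if j = l then 1 else 0) (j : ι) : Geo2 (ndOf D Γ h1) j := by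
  intro C κ hκ
  obtain ⟨R, hR0, hR⟩ := D.tw_right j hκ (abs_nonneg C)
  refine ⟨0, (((∑ l, (D.d l + 1 : ℕ) : ℕ) : ℝ) ^ 2 * Real.exp (2 * R))⁻¹, ?_, fun b h _ _ hC hk m => ?_⟩
  · have h0 : (0 : ℝ) < ((∑ l, (D.d l + 1 : ℕ) : ℕ) : ℝ) := by
      have h1 : ((D.d j + 1 : ℕ) : ℝ) ≤ ((∑ l, (D.d l + 1 : ℕ) : ℕ) : ℝ) := by
        exact_mod_cast Finset.single_le_sum (f := fun l => D.d l + 1) (fun _ _ => Nat.zero_le _) (Finset.mem_univ j)
      exact lt_of_lt_of_le (by positivity) h1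
    positivity
  · refine hs_of_tw' D (hR (b : 𝔾) (h : 𝔾) (fun i hi => (hC i hi).trans (le_abs_self C)) ?_) m
    rw [inner_eq] at hk
    rw [opp_eq]
    refine hk.trans (le_of_eq ?_)
    congr 1
    exact Finset.sum_congr rfl fun i _ => mul_comm _ _

end Pool.Agent.Helper13.FQ
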