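import Pool.Agent.Helper13.FQ.Ins
import Pool.Agent.Helper13.FQ.Geo2
import Pool.Agent.Helper55.FQ.Cfg
import Pool.Agent.Helper35.NI.Asm
import Pool.Agent.Helper64.NIG.Geo
import Pool.Agent.Helper42.FQ.Rep
import Pool.Agent.Helper35.TZ.Fin2

/-!
# Project FQ (MP_0f6f3f_an), layer INS: the field `ins` for two groups with group data

`ins_gd`: source `𝔾` with group data `D`, lattice `Γ`, target `𝔾'` with group data `D'`, discrete subgroup `Λ`: the field `ins` of the sandwich data at the node `u` of the source of type `s u`.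
`Cf.ni`, `Cf.ins`: the same for the configuration `Cf`.
-/

set_option autoImplicit false
set_option linter.unusedSectionVars false

open MeasureTheory Filter Topology Matrix

namespace Pool.Agent.Helper13.FQ

open Pool.Agent.Helper84.NI Pool.Agent.Helper84.GVN Pool.Agent.Helper90.RK
open Pool.Agent.Helper84.GN hiding toReg
open Pool.Agent.Helper96.RK Pool.Agent.Helper66.FR Pool.Agent.Helper84.FR Pool.Agent.Helper96.FR Pool.Agent.Helper55.FR
open Pool.Agent.Helper35.NI Pool.Agent.Helper20.FQ Pool.Agent.Helper7.NI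
open Pool.Agent.Helper45.FQ (pE)
open Pool.Agent.Helper78.BM (FullE)
open Pool.Agent.Helper85.KL (nr)
open Pool.Agent.Helper52.FQ (DD)
open Pool.Agent.Helper84.GDL (GD)
open Pool.Agent.Helper55.FQ (gG gp wn Mt Cf Gr)
open Pool.Agent.Helper35.TZ (autC isAdj_autC lcs_autC)

section Gen

variable {𝔾 𝔾' : Type} [Group 𝔾] [TopologicalSpace 𝔾] [IsTopologicalGroup 𝔾] [T2Space 𝔾] [SecondCountableTopology 𝔾] [LocallyCompactSpace 𝔾]
  [MeasurableSpace 𝔾] [BorelSpace 𝔾] [Group 𝔾'] [TopologicalSpace 𝔾'] [IsTopologicalGroup 𝔾'] [T2Space 𝔾'] {r : ℕ}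
  {X : Type} [MeasurableSpace X] [MulAction 𝔾 X] [MeasurableConstSMul 𝔾 X] {Γ : Subgroup 𝔾} {Λ : Subgroup 𝔾'} [Countable Γ]
  [DiscreteTopology Λ] {μ : Measure X} [SMulInvariantMeasure 𝔾 X μ] [IsProbabilityMeasure μ] {a : Cocy 𝔾 X Γ} {E : Emb Γ Λ}
  {D : GD 𝔾 (Fin r)} {D' : GD 𝔾' (Fin r)} {hm : Measure 𝔾} {σ : X → 𝔾}

/-- The powers of `exp (W u)`. -/
theorem wn_pow (D : GD 𝔾 (Fin r)) (u : Fin r) : wn D u = fun n : ℕ => D.ea (Pi.single u 1) ^ n := by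
  funext n
  rw [Pool.Agent.Helper42.FQ.ea_pow]
  rfl

/-- **The field `ins`.** -/
theorem ins_gd (h1 : ∀ l, ∃ i, ∀ j, D'.n l i j = if j = l then 1 else 0) (hf : ∀ R : ℝ, {k : Λ | ∀ i, D'.mu (k : 𝔾') i ≤ R}.Finite)
    {s : Fin r → Fin r} {u : Fin r} (hNI : (ndOf D' Λ h1).NI (s u)) (hD : DD μ a E (D.ea (Pi.single u 1)) Γ.subtype hm σ) (hF : FullE E)
    (ht : Mt μ a E D D' hf s) (hR : LFR μ a E ((ndOf D' Λ h1).r (s u)) (fun n : ℕ => D.ea (Pi.single u 1) ^ n) atTop)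
    (hL : LFL μ a E ((ndOf D' Λ h1).r (s u)) (fun n : ℕ => D.ea (Pi.single u 1) ^ n) atTop) :
    ∀ ε > 0, ∃ L C : ℝ, ∀ b, L ≤ (gp D' Λ hf).gap b (s u) →
      ∑' l, pE E l b * Pool.Agent.Helper17.FQ.th μ a E (D.ea (Pi.single u 1)) l {b' | ¬ nr (gp D' Λ hf).gap (s u) C b b'} ≤ ε := by
  have ht' : IsType μ a E (gp D' Λ hf) (fun n : ℕ => D.ea (Pi.single u 1) ^ n) atTop (s u) := by
    rw [← wn_pow D u]
    exact ht u
  exact ins (A := gp D' Λ hf) (N := ndOf D' Λ h1) (fun _ _ => rfl) hNI (geo2 D' Λ h1 (s u)) hD hF ht' hR hL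

end Gen

section Cfg

variable {L L' : Type} [LieRing L] [LieAlgebra ℝ L] [LieRing L'] [LieAlgebra ℝ L'] {N N' : ℕ} {r : ℕ}
  {θ : L ≃ₗ⁅ℝ⁆ L} {θ' : L' ≃ₗ⁅ℝ⁆ L'} {b : Module.Basis (Fin N) ℝ L} {b' : Module.Basis (Fin N') ℝ L'}
  {A : Submodule ℝ L} {A' : Submodule ℝ L'} {τ : Module.Dual ℝ A ≃ₗ[ℝ] A} {τ' : Module.Dual ℝ A' ≃ₗ[ℝ] A'}
  {al : Fin r → Module.Dual ℝ A} {al' : Fin r → Module.Dual ℝ A'} {W : Fin r → A} {W' : Fin r → A'}
  {D : GD (autC b) (Fin r)} {D' : GD (autC b') (Fin r)} [MeasurableSpace (autC b)] [BorelSpace (autC b)]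
  {Γ : Subgroup (autC b)} {Λ : Subgroup (autC b')} [Countable Γ] [Countable Λ]
  {X : Type} [MeasurableSpace X] [MulAction (autC b) X] [MeasurableConstSMul (autC b) X] {μ : Measure X}
  [SMulInvariantMeasure (autC b) X μ] [IsProbabilityMeasure μ] {a : Cocy (autC b) X Γ} {E : Emb Γ Λ} {hm : Measure (autC b)} {σ : X → autC b}

/-- **The near isometry for the target of the configuration.** -/
theorem Cf.ni (C : Cf θ θ' A A' τ τ' al al' W W' D D' μ a E) [DiscreteTopology Λ] (j : Fin r) : (ndOf D' Λ C.G'.low).NI j := by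
  have h1 : LocallyCompactSpace (autC b') := (lcs_autC b').1
  have h2 : SecondCountableTopology (autC b') := (lcs_autC b').2.1
  have h3 : SigmaCompactSpace (autC b') := inferInstance
  exact ND.ni_of_geo _ j (Pool.Agent.Helper64.NIG.geo D' Λ C.G'.low C.G'.dn j)

/-- **The field `ins` for the configuration.** -/
theorem Cf.ins (C : Cf θ θ' A A' τ τ' al al' W W' D D' μ a E) [DiscreteTopology Λ] {s : Fin r → Fin r} (ht : Mt μ a E D D' C.hf' s)
    (u : Fin r) (hD : DD μ a E (D.ea (Pi.single u 1)) Γ.subtype hm σ)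
    (hR : LFR μ a E ((ndOf D' Λ C.G'.low).r (s u)) (fun n : ℕ => D.ea (Pi.single u 1) ^ n) atTop)
    (hL : LFL μ a E ((ndOf D' Λ C.G'.low).r (s u)) (fun n : ℕ => D.ea (Pi.single u 1) ^ n) atTop) :
    ∀ ε > 0, ∃ L C₁ : ℝ, ∀ b, L ≤ (gp D' Λ C.hf').gap b (s u) →
      ∑' l, pE E l b * Pool.Agent.Helper17.FQ.th μ a E (D.ea (Pi.single u 1)) l {b' | ¬ nr (gp D' Λ C.hf').gap (s u) C₁ b b'} ≤ ε := by
  have h1 : LocallyCompactSpace (autC b) := (lcs_autC b).1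
  have h2 : SecondCountableTopology (autC b) := (lcs_autC b).2.1
  exact ins_gd C.G'.low C.hf' (Cf.ni C (s u)) hD C.cyc.full ht hR hL

end Cfg

end Pool.Agent.Helper13.FQ
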