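import Pool.Agent.Helper13.FQ.InsG
import Pool.Agent.Helper20.FQ.Lf
import Pool.Agent.Helper11.FQ.Mk

/-!
# Project FQ (MP_0f6f3f_an), layer INS: the field `ins` of the sandwich data

`ins`: for `b` with `gap b j` large, `∑ p(l, b) θ_l {b' | b' is not near b at the gaps ≠ j} ≤ ε`. Proof: diagonality (`ins_le`), the near isometry `N.NI j` applied to `v = U_c` and `u = λ_b U_c'`,
the lower bounds `lf_Sv`, `lf_Svl` for the vectors of the powers of `w`, and the geometry `geo_right` of the products `b h`.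
-/

set_option autoImplicit false
set_option linter.unusedSectionVars false

open MeasureTheory Filter Topology Matrix

namespace Pool.Agent.Helper13.FQ

open Pool.Agent.Helper84.NI Pool.Agent.Helper84.GVN Pool.Agent.Helper90.RK
open Pool.Agent.Helper84.GN hiding toReg
open Pool.Agent.Helper96.RK Pool.Agent.Helper66.FR Pool.Agent.Helper84.FR Pool.Agent.Helper96.FR Pool.Agent.Helper55.FR
open Pool.Agent.Helper43.TA Pool.Agent.Helper43.FQ Pool.Agent.Helper35.NI Pool.Agent.Helper20.TB Pool.Agent.Helper20.FQ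
open Pool.Agent.Helper45.FQ (pE)
open Pool.Agent.Helper78.BM (FullE)
open Pool.Agent.Helper85.KL (nr)
open Pool.Agent.Helper52.FQ (DD sa da uv lr ms ms_bound)
open Pool.Agent.Helper11.FQ

section Main

variable {G1 X G Λ : Type} [Group G1] [TopologicalSpace G1] [IsTopologicalGroup G1] [SecondCountableTopology G1] [LocallyCompactSpace G1]
  [MeasurableSpace G1] [BorelSpace G1] [MeasurableSpace X] [MulAction G1 X]
  [MeasurableConstSMul G1 X] [Group G] [Group Λ] [Countable Λ] {μ : Measure X} [SMulInvariantMeasure G1 X μ]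
  [IsProbabilityMeasure μ] {a : Cocy G1 X Λ} {E : Emb Λ G} {w : G1} {js : Λ →* G1} {hm : Measure G1} {σ : X → G1}

/-- The bound before the limit. -/
theorem ins_pre {r : ℕ} {N : ND G (Fin r)} {j : Fin r} (hNI : N.NI j) (hG : Geo2 N j)
    (hS : ∀ ε : ℝ, 0 < ε → ∃ C κ : ℝ, 0 ≤ C ∧ 0 < κ ∧ ∀ L : ℝ, ∀ e : EuclideanSpace ℝ (Fin (N.n j)), ‖e‖ = 1 → ∀ᶠ n : ℕ in atTop,
      Pool.Agent.Helper9.FQ.mass μ a E (N.Sv j C κ L e)ᶜ (w ^ n) ≤ ε)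
    (hL : ∀ ε : ℝ, 0 < ε → ∃ C κ : ℝ, 0 ≤ C ∧ 0 < κ ∧ ∀ L : ℝ, ∀ e : EuclideanSpace ℝ (Fin (N.n j)), ‖e‖ = 1 → ∀ᶠ n : ℕ in atTop,
      Pool.Agent.Helper9.FQ.mass μ a E (Svl N j C κ L e)ᶜ (w ^ n) ≤ ε) :
    ∀ ε : ℝ, 0 < ε → ∃ L C : ℝ, ∀ b, L ≤ N.gap b j → ∃ n₀ : ℕ, ∀ n m : ℕ, n₀ ≤ n → n₀ ≤ m →
      ms μ a E w {b' | ¬ nr N.gap j C b b'} (dl b) n m ≤ ε := by
  intro ε hε
  obtain ⟨δV, hδV, h1⟩ := hNI (Real.sqrt (ε / 2)) (Real.sqrt_pos.2 (half_pos hε))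
  obtain ⟨C, κ, hC, hκ, h2⟩ := hS (ε / 4 * δV ^ 2) (by positivity)
  obtain ⟨δU, d, hδU, hd, h3⟩ := h1 C κ hC hκ
  obtain ⟨C2, κ2, hC2, hκ2, h4⟩ := hL (ε / 4 * δU ^ 2) (by positivity)
  obtain ⟨CU, hCU, h5⟩ := geo_right hG (C := C2) hκ2
  obtain ⟨L, C', hC', h6⟩ := h3 CU hCU
  obtain ⟨L1, h7⟩ := h5 d hd L
  refine ⟨L1, C', fun b hb => ?_⟩
  have h8 := (h2 L (N.xL j b) (N.uL j b)).and (h4 L1 (N.xR j b) (N.uR j b))
  obtain ⟨n₀, hn₀⟩ := eventually_atTop.1 h8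
  refine ⟨n₀, fun n m hn hm => ?_⟩
  have key := da_markov (μ := μ) (a := a) (E := E) (w := w) (f := fun c c' => ‖ind ℂ {b' | ¬ nr N.gap j C' b b'} (lr E c c' (dl b))‖ ^ 2)
    (fun c c' => sq_nonneg _) (fun c c' => ?_) (P := (N.Sv j C κ L (N.xL j b))ᶜ)
    (Q := (Svl N j C2 κ2 L1 (N.xR j b))ᶜ) (η := ε / 2) (half_pos hε).le
    hδV hδU (fun c c' hc hc' => ?_) n m
  · have h9 : Pool.Agent.Helper9.FQ.mass μ a E (N.Sv j C κ L (N.xL j b))ᶜ (w ^ n) / δV ^ 2 ≤ ε / 4 := by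
      rw [div_le_iff₀ (by positivity)]
      exact (hn₀ n hn).1
    have h10 : Pool.Agent.Helper9.FQ.mass μ a E (Svl N j C2 κ2 L1 (N.xR j b))ᶜ (w ^ m) / δU ^ 2 ≤ ε / 4 := by
      rw [div_le_iff₀ (by positivity)]
      exact (hn₀ m hm).2
    refine key.trans ?_
    linarith
  · have h9 := ms_bound (E := E) {b' | ¬ nr N.gap j C' b b'} (dl b) c c'
    rw [Real.norm_of_nonneg (by positivity), norm_dl, one_pow] at h9
    exact h9
  · have h9 := h6 (N.xL j b) (N.uL j b) (N.gap b) (E.U c) (lamU b * E.U c') (E.comm c) (commR_lam_mul E b c') hc ?_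
    · have e1 : {b' | ¬ nr N.gap j C' b b'} = {p | ∃ i, i ≠ j ∧ C' < |N.gap p i - N.gap b i|} := by
        ext p
        simp only [nr, Set.mem_ofPred_eq, not_forall, not_le, exists_prop]
        refine exists_congr fun i => and_congr_right fun _ => ?_
        rw [abs_sub_comm]
      rw [lr_dl_mul, e1]
      have h10 := pow_le_pow_left₀ (norm_nonneg _) h9 2
      rw [Real.sq_sqrt (half_pos hε).le] at h10
      exact h10
    · rw [lam_mul_dl, norm_ind_lamU]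
      refine (norm_ind_mono ?_ _).trans hc'
      intro h hh hh'
      exact hh (h7 b h hb hh'.2.1 hh'.1 hh'.2.2)

/-- **INS**, with the lower bounds as hypotheses. -/
theorem ins_of {r : ℕ} {N : ND G (Fin r)} {j : Fin r} (hNI : N.NI j) (hG : Geo2 N j) (hD : DD μ a E w js hm σ) (hF : FullE E)
    (hS : ∀ ε : ℝ, 0 < ε → ∃ C κ : ℝ, 0 ≤ C ∧ 0 < κ ∧ ∀ L : ℝ, ∀ e : EuclideanSpace ℝ (Fin (N.n j)), ‖e‖ = 1 → ∀ᶠ n : ℕ in atTop,
      Pool.Agent.Helper9.FQ.mass μ a E (N.Sv j C κ L e)ᶜ (w ^ n) ≤ ε)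
    (hL : ∀ ε : ℝ, 0 < ε → ∃ C κ : ℝ, 0 ≤ C ∧ 0 < κ ∧ ∀ L : ℝ, ∀ e : EuclideanSpace ℝ (Fin (N.n j)), ‖e‖ = 1 → ∀ᶠ n : ℕ in atTop,
      Pool.Agent.Helper9.FQ.mass μ a E (Svl N j C κ L e)ᶜ (w ^ n) ≤ ε) :
    ∀ ε > 0, ∃ L C : ℝ, ∀ b, L ≤ N.gap b j →
      ∑' l, pE E l b * Pool.Agent.Helper17.FQ.th μ a E w l {b' | ¬ nr N.gap j C b b'} ≤ ε := by
  intro ε hε
  obtain ⟨L, C, h⟩ := ins_pre hNI hG hS hL ε hε
  refine ⟨L, C, fun b hb => ?_⟩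
  obtain ⟨n₀, hn₀⟩ := h b hb
  exact Pool.Agent.Helper52.FQ.ins_le hD hF _ b hε.le fun n m hn hm => hn₀ n m hn hm

/-- **INS.** `w` is of type `j`, no mass near the hyperplanes. -/
theorem ins {r : ℕ} {A : Gp G r} {N : ND G (Fin r)} {j : Fin r} (hg : ∀ γ i, N.gap γ i = A.gap γ i) (hNI : N.NI j) (hG : Geo2 N j)
    (hD : DD μ a E w js hm σ) (hF : FullE E) (ht : IsType μ a E A (fun n : ℕ => w ^ n) atTop j)
    (hR : LFR μ a E (N.r j) (fun n : ℕ => w ^ n) atTop) (hL : LFL μ a E (N.r j) (fun n : ℕ => w ^ n) atTop) :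
    ∀ ε > 0, ∃ L C : ℝ, ∀ b, L ≤ A.gap b j →
      ∑' l, pE E l b * Pool.Agent.Helper17.FQ.th μ a E w l {b' | ¬ nr A.gap j C b b'} ≤ ε := by
  have hg' : N.gap = A.gap := by
    funext γ i
    exact hg γ i
  rw [← hg']
  refine ins_of hNI hG hD hF (fun ε hε => ?_) (fun ε hε => ?_)
  · obtain ⟨C, κ, hC, hκ, h⟩ := lf_Sv hg ht hR hε
    exact ⟨C, κ, hC, hκ, fun L e he => (h L).mono fun n hn => hn e he⟩
  · obtain ⟨C, κ, hC, hκ, h⟩ := lf_Svl hg ht hL hε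
    exact ⟨C, κ, hC, hκ, fun L e he => (h L).mono fun n hn => hn e he⟩

end Main

end Pool.Agent.Helper13.FQ
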