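import Pool.Agent.Helper35.NI.Defs

/-!
# Project FQ (MP_0f6f3f_an), layer INS: geometry of the products `b h`, `h` a one gap element

`Geo2 j`: no cancellation in `b h` if `gap b j`, `gap h j` are large, the other gaps of `h` are bounded and the left data of `h` is not near the hyperplane of the right data of `b`.
`geo_right`: then the left data of `b h` is near that of `b`, and the other gaps of `b h` are those of `b` up to a constant.
-/

set_option autoImplicit false
set_option linter.unusedSectionVars false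

open Matrix Filter Topology

namespace Pool.Agent.Helper13.FQ

open Pool.Agent.Helper20.TB Pool.Agent.Helper35.NI

section Lin

variable {n : ℕ}

/-- Quadratic form. -/
def qf (M : Matrix (Fin n) (Fin n) ℝ) (z : Fin n → ℝ) : ℝ := ∑ a, ∑ b, z a * M a b * z b

theorem qf_near {M : Matrix (Fin n) (Fin n) ℝ} {y z : Fin n → ℝ} {δ : ℝ} (hM : ∀ a b, |M a b - y a * y b| ≤ δ) (hz : ∀ a, |z a| ≤ 1) :
    |qf M z - (∑ a, z a * y a) ^ 2| ≤ (n : ℝ) * (n * δ) := by
  have e : qf M z - (∑ a, z a * y a) ^ 2 = ∑ a, ∑ b, z a * (M a b - y a * y b) * z b := by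
    unfold qf
    rw [sq, Finset.sum_mul_sum, ← Finset.sum_sub_distrib]
    refine Finset.sum_congr rfl fun a _ => ?_
    rw [← Finset.sum_sub_distrib]
    refine Finset.sum_congr rfl fun b _ => ?_
    ring
  rw [e]
  refine (Finset.abs_sum_le_sum_abs _ _).trans ?_
  refine (Finset.sum_le_card_nsmul _ _ (n * δ) fun a _ => ?_).trans (by simp)
  refine (Finset.abs_sum_le_sum_abs _ _).trans ?_
  refine (Finset.sum_le_card_nsmul _ _ δ fun b _ => ?_).trans (by simp)
  rw [abs_mul, abs_mul]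
  have h1 := hM a b
  have h2 := hz a
  have h3 := hz b
  have h4 := abs_nonneg (z a)
  have h5 := abs_nonneg (z b)
  have h6 := abs_nonneg (M a b - y a * y b)
  calc |z a| * |M a b - y a * y b| * |z b| ≤ 1 * |M a b - y a * y b| * 1 := by gcongr
    _ ≤ δ := by rw [one_mul, mul_one]; exact h1

/-- `z ᵥ* A` squared. -/
theorem qf_mul_transpose (A : Matrix (Fin n) (Fin n) ℝ) (z : Fin n → ℝ) : qf (A * Aᵀ) z = ∑ c, (∑ a, z a * A a c) ^ 2 := by
  unfold qf
  have e : ∀ a b : Fin n, z a * (A * Aᵀ) a b * z b = ∑ c, (z a * A a c) * (z b * A b c) := fun a b => by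
    rw [Matrix.mul_apply, Finset.mul_sum, Finset.sum_mul]
    refine Finset.sum_congr rfl fun c _ => ?_
    rw [Matrix.transpose_apply]
    ring
  simp only [e]
  rw [Finset.sum_congr rfl fun a _ => Finset.sum_comm, Finset.sum_comm]
  refine Finset.sum_congr rfl fun c _ => ?_
  rw [sq, Finset.sum_mul_sum]

theorem qf_smul (c : ℝ) (M : Matrix (Fin n) (Fin n) ℝ) (z : Fin n → ℝ) : qf (c • M) z = c * qf M z := by
  unfold qf
  rw [Finset.mul_sum]
  refine Finset.sum_congr rfl fun a _ => ?_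
  rw [Finset.mul_sum]
  refine Finset.sum_congr rfl fun b _ => ?_
  rw [Matrix.smul_apply, smul_eq_mul]
  ring

theorem vm_le (B : Matrix (Fin n) (Fin n) ℝ) (v : Fin n → ℝ) : ∑ c, (∑ a, v a * B a c) ^ 2 ≤ hs B * ∑ a, v a ^ 2 := by
  have h : ∀ c, (∑ a, v a * B a c) ^ 2 ≤ (∑ a, v a ^ 2) * ∑ a, B a c ^ 2 := fun c => Finset.sum_mul_sq_le_sq_mul_sq _ _ _
  refine (Finset.sum_le_sum fun c _ => h c).trans (le_of_eq ?_)
  rw [← Finset.mul_sum, mul_comm]
  congr 1
  unfold hs
  exact Finset.sum_comm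

theorem hs_mul_le (A B : Matrix (Fin n) (Fin n) ℝ) : hs (A * B) ≤ hs A * hs B := by
  have h : ∀ i, ∑ c, (A * B) i c ^ 2 ≤ hs B * ∑ a, A i a ^ 2 := fun i => by
    have := vm_le B (A i)
    simpa only [Matrix.mul_apply] using this
  calc hs (A * B) = ∑ i, ∑ c, (A * B) i c ^ 2 := rfl
    _ ≤ ∑ i, hs B * ∑ a, A i a ^ 2 := Finset.sum_le_sum fun i _ => h i
    _ = hs A * hs B := by rw [← Finset.mul_sum, mul_comm]; rfl

theorem hs_transpose' (A : Matrix (Fin n) (Fin n) ℝ) : hs Aᵀ = hs A := by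
  unfold hs
  rw [Finset.sum_comm]
  rfl

theorem qf_gm_transpose (A : Matrix (Fin n) (Fin n) ℝ) (z : Fin n → ℝ) : qf (gm Aᵀ) z = (hs A)⁻¹ * ∑ c, (∑ a, z a * A a c) ^ 2 := by
  unfold gm
  rw [qf_smul, hs_transpose', Matrix.transpose_transpose, qf_mul_transpose]

/-- The left data of a product without cancellation. -/
theorem left_data {A B : Matrix (Fin n) (Fin n) ℝ} {x y : Fin n → ℝ} {c δ δ' : ℝ} (hA : 0 < hs A) (hB : 0 < hs B) (hc : 0 < c)
    (hAB : c * (hs A * hs B) ≤ hs (A * B)) (hx : ∑ a, x a ^ 2 = 1) (hy : ∑ a, y a ^ 2 = 1) (h1 : ∀ a b, |gm Aᵀ a b - y a * y b| ≤ δ)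
    (h2 : ∀ a b, |gm (A * B)ᵀ a b - x a * x b| ≤ δ') : 1 - (∑ a, x a * y a) ^ 2 ≤ (n : ℝ) * (n * δ) / c + n * (n * δ') := by
  set s : ℝ := ∑ a, x a * y a with hs'
  have hAB0 : 0 < hs (A * B) := lt_of_lt_of_le (by positivity) hAB
  -- the component of `x` orthogonal to `y`
  set u : Fin n → ℝ := fun a => x a - s * y a with hu
  have hu2 : ∑ a, u a ^ 2 = 1 - s ^ 2 := by
    have e : ∀ a, u a ^ 2 = x a ^ 2 - 2 * s * (x a * y a) + s ^ 2 * y a ^ 2 := fun a => by
      rw [hu]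
      ring
    simp only [e]
    rw [Finset.sum_add_distrib, Finset.sum_sub_distrib, ← Finset.mul_sum, ← Finset.mul_sum, hx, hy, ← hs']
    ring
  have huy : ∑ a, u a * y a = 0 := by
    have e : ∀ a, u a * y a = x a * y a - s * y a ^ 2 := fun a => by
      rw [hu]
      ring
    simp only [e]
    rw [Finset.sum_sub_distrib, ← Finset.mul_sum, hy, ← hs']
    ring
  have hux : ∑ a, u a * x a = 1 - s ^ 2 := by
    have e : ∀ a, u a * x a = x a ^ 2 - s * (x a * y a) := fun a => by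
      rw [hu]
      ring
    simp only [e]
    rw [Finset.sum_sub_distrib, ← Finset.mul_sum, hx, ← hs']
    ring
  set t : ℝ := 1 - s ^ 2 with ht
  have ht0 : 0 ≤ t := by
    rw [← hu2]
    exact Finset.sum_nonneg fun a _ => sq_nonneg _
  have hδ : 0 ≤ δ := by
    rcases Nat.eq_zero_or_pos n with h0 | h0
    · subst h0
      simp at hx
    · exact (abs_nonneg _).trans (h1 ⟨0, h0⟩ ⟨0, h0⟩)
  have hδ' : 0 ≤ δ' := by
    rcases Nat.eq_zero_or_pos n with h0 | h0
    · subst h0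
      simp at hx
    · exact (abs_nonneg _).trans (h2 ⟨0, h0⟩ ⟨0, h0⟩)
  rcases eq_or_lt_of_le ht0 with h0 | h0
  · rw [← h0]
    positivity
  -- the unit vector
  set z : Fin n → ℝ := fun a => u a / Real.sqrt t with hz
  have hst : 0 < Real.sqrt t := Real.sqrt_pos.2 h0
  have hsq : Real.sqrt t ^ 2 = t := Real.sq_sqrt ht0
  have hz2 : ∑ a, z a ^ 2 = 1 := by
    have e : ∀ a, z a ^ 2 = u a ^ 2 / t := fun a => by
      rw [hz]
      simp only
      rw [div_pow, hsq]
    simp only [e]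
    rw [← Finset.sum_div, hu2, div_self h0.ne']
  have hz1 : ∀ a, |z a| ≤ 1 := fun a => by
    have h3 : z a ^ 2 ≤ 1 := by
      rw [← hz2]
      exact Finset.single_le_sum (f := fun a => z a ^ 2) (fun a _ => sq_nonneg _) (Finset.mem_univ a)
    exact abs_le_one_iff_mul_self_le_one.2 (by rwa [← sq])
  have hzy : ∑ a, z a * y a = 0 := by
    have e : ∀ a, z a * y a = u a * y a / Real.sqrt t := fun a => by
      rw [hz]
      ring
    simp only [e]
    rw [← Finset.sum_div, huy, zero_div]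
  have hzx : (∑ a, z a * x a) ^ 2 = t := by
    have e : ∀ a, z a * x a = u a * x a / Real.sqrt t := fun a => by
      rw [hz]
      ring
    simp only [e]
    rw [← Finset.sum_div, hux, div_pow, hsq, sq, mul_div_assoc, div_self h0.ne', mul_one]
  have q1 := qf_near h1 hz1
  rw [hzy] at q1
  have q2 := qf_near h2 hz1
  rw [hzx] at q2
  rw [qf_gm_transpose] at q1 q2
  have q3 : ∑ c, (∑ a, z a * (A * B) a c) ^ 2 ≤ hs B * ∑ c, (∑ a, z a * A a c) ^ 2 := by
    have e : ∀ c, ∑ a, z a * (A * B) a c = ∑ d, (∑ a, z a * A a d) * B d c := fun c => by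
      simp only [Matrix.mul_apply, Finset.mul_sum, Finset.sum_mul]
      rw [Finset.sum_comm]
      refine Finset.sum_congr rfl fun d _ => Finset.sum_congr rfl fun a _ => ?_
      ring
    simp only [e]
    exact vm_le B _
  set T : ℝ := ∑ c, (∑ a, z a * A a c) ^ 2 with hT
  set T' : ℝ := ∑ c, (∑ a, z a * (A * B) a c) ^ 2 with hT'
  have hT0 : 0 ≤ T := Finset.sum_nonneg fun c _ => sq_nonneg _
  have q4 : (hs (A * B))⁻¹ * T' ≤ ((hs A)⁻¹ * T) / c := by
    rw [inv_mul_le_iff₀ hAB0]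
    calc T' ≤ hs B * T := q3
      _ = c * (hs A * hs B) * ((hs A)⁻¹ * T / c) := by field_simp
      _ ≤ hs (A * B) * ((hs A)⁻¹ * T / c) := by
          refine mul_le_mul_of_nonneg_right hAB ?_
          positivity
  have q5 := (abs_le.1 q2).1
  have q6 := (abs_le.1 q1).2
  have q7 : (hs A)⁻¹ * T ≤ n * (n * δ) := by
    have : (0 : ℝ) ^ 2 = 0 := by norm_num
    linarith
  have q8 : (hs A)⁻¹ * T / c ≤ n * (n * δ) / c := div_le_div_of_nonneg_right q7 hc.le
  linarith

end Lin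

section Geo

variable {G : Type} [Group G] {I : Type} [Fintype I] (A : ND G I)

/-- No cancellation in `b h`, `h` a one gap element whose left data is not near the hyperplane of the right data of `b`. -/
def Geo2 (j : I) : Prop := ∀ C κ : ℝ, 0 < κ → ∃ L c : ℝ, 0 < c ∧ ∀ b h : G, L ≤ A.gap b j → L ≤ A.gap h j → (∀ i, i ≠ j → A.gap h i ≤ C) →
  κ ≤ |inner ℝ (A.xL j h) (A.xR j b)| → ∀ m, c * (hs (A.r m b) * hs (A.r m h)) ≤ hs (A.r m (b * h))

variable {A}

theorem inner_eq {n : ℕ} (x y : EuclideanSpace ℝ (Fin n)) : inner ℝ x y = ∑ a, x a * y a := by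
  rw [EuclideanSpace.inner_eq_star_dotProduct]
  simp only [dotProduct, star_trivial, Pi.star_apply]
  exact Finset.sum_congr rfl fun a _ => mul_comm _ _

theorem sum_sq_one {n : ℕ} {x : EuclideanSpace ℝ (Fin n)} (hx : ‖x‖ = 1) : ∑ a, x a ^ 2 = 1 := by
  have h := real_inner_self_eq_norm_sq x
  rw [inner_eq, hx, one_pow] at h
  rw [← h]
  exact Finset.sum_congr rfl fun a _ => sq _

theorem hs_pos (i : I) (g : G) : 0 < hs (A.r i g) := by
  have h0 : 0 ≤ hs (A.r i g) := Finset.sum_nonneg fun _ _ => Finset.sum_nonneg fun _ _ => sq_nonneg _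
  rcases eq_or_lt_of_le h0 with h | h
  · exfalso
    have h1 : hs (A.r i (g * g⁻¹)) ≤ 0 := by
      rw [map_mul]
      refine (hs_mul_le _ _).trans ?_
      rw [← h, zero_mul]
    rw [mul_inv_cancel, map_one] at h1
    have h2 : 0 < A.n i := by
      rcases Nat.eq_zero_or_pos (A.n i) with h3 | h3
      · exfalso
        have h4 := sum_sq_one (A.uR i g)
        have h5 : IsEmpty (Fin (A.n i)) := by
          rw [h3]
          infer_instance
        rw [Finset.univ_eq_empty, Finset.sum_empty] at h4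
        norm_num at h4
      · exact h3
    have h3 : (1 : ℝ) ≤ hs (1 : Matrix (Fin (A.n i)) (Fin (A.n i)) ℝ) := by
      unfold hs
      calc (1 : ℝ) = (1 : Matrix (Fin (A.n i)) (Fin (A.n i)) ℝ) ⟨0, h2⟩ ⟨0, h2⟩ ^ 2 := by rw [Matrix.one_apply_eq, one_pow]
        _ ≤ ∑ b, (1 : Matrix (Fin (A.n i)) (Fin (A.n i)) ℝ) ⟨0, h2⟩ b ^ 2 :=
          Finset.single_le_sum (f := fun b => (1 : Matrix (Fin (A.n i)) (Fin (A.n i)) ℝ) ⟨0, h2⟩ b ^ 2) (fun _ _ => sq_nonneg _) (Finset.mem_univ _)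
        _ ≤ _ := Finset.single_le_sum (f := fun a => ∑ b, (1 : Matrix (Fin (A.n i)) (Fin (A.n i)) ℝ) a b ^ 2)
          (fun _ _ => Finset.sum_nonneg fun _ _ => sq_nonneg _) (Finset.mem_univ _)
    linarith
  · exact h

/-- The constant of the gaps of a product. -/
noncomputable def Kc (A : ND G I) (c : ℝ) : ℝ := 3 * A.C0 + (∑ i, ∑ m, |A.co i m|) * |Real.log c|

theorem Kc_nonneg (c : ℝ) : 0 ≤ Kc A c := by
  unfold Kc
  have h := A.one_le
  have h1 : 0 ≤ ∑ i, ∑ m, |A.co i m| := Finset.sum_nonneg fun _ _ => Finset.sum_nonneg fun _ _ => abs_nonneg _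
  have h2 := abs_nonneg (Real.log c)
  positivity

/-- The gaps of a product without cancellation. -/
theorem gap_mul {b h : G} {c : ℝ} (hc : 0 < c) (hh : ∀ m, c * (hs (A.r m b) * hs (A.r m h)) ≤ hs (A.r m (b * h))) (i : I) :
    |A.gap (b * h) i - (A.gap b i + A.gap h i)| ≤ Kc A c := by
  have h1 := A.size (b * h) i
  have h2 := A.size b i
  have h3 := A.size h i
  have h4 : ∀ m, |Real.log (hs (A.r m (b * h))) - (Real.log (hs (A.r m b)) + Real.log (hs (A.r m h)))| ≤ |Real.log c| := fun m => by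
    have hb := hs_pos (A := A) m b
    have hh' := hs_pos (A := A) m h
    have hbh := hs_pos (A := A) m (b * h)
    have e1 : Real.log (hs (A.r m (b * h))) ≤ Real.log (hs (A.r m b)) + Real.log (hs (A.r m h)) := by
      rw [← Real.log_mul hb.ne' hh'.ne']
      refine Real.log_le_log hbh ?_
      rw [map_mul]
      exact hs_mul_le _ _
    have e2 : Real.log c + (Real.log (hs (A.r m b)) + Real.log (hs (A.r m h))) ≤ Real.log (hs (A.r m (b * h))) := by
      rw [← Real.log_mul hb.ne' hh'.ne', ← Real.log_mul hc.ne' (mul_pos hb hh').ne']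
      exact Real.log_le_log (by positivity) (hh m)
    rw [abs_le]
    constructor
    · linarith [neg_abs_le (Real.log c)]
    · linarith [abs_nonneg (Real.log c)]
  have h5 : |∑ m, A.co i m * Real.log (hs (A.r m (b * h))) - (∑ m, A.co i m * Real.log (hs (A.r m b)) + ∑ m, A.co i m * Real.log (hs (A.r m h)))| ≤
      (∑ m, |A.co i m|) * |Real.log c| := by
    rw [← Finset.sum_add_distrib, ← Finset.sum_sub_distrib, Finset.sum_mul]
    refine (Finset.abs_sum_le_sum_abs _ _).trans (Finset.sum_le_sum fun m _ => ?_)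
    rw [← mul_add, ← mul_sub, abs_mul]
    exact mul_le_mul_of_nonneg_left (h4 m) (abs_nonneg _)
  have h6 : ∑ m, |A.co i m| ≤ ∑ i, ∑ m, |A.co i m| :=
    Finset.single_le_sum (f := fun i => ∑ m, |A.co i m|) (fun _ _ => Finset.sum_nonneg fun _ _ => abs_nonneg _) (Finset.mem_univ i)
  have h7 := mul_le_mul_of_nonneg_right h6 (abs_nonneg (Real.log c))
  unfold Kc
  rw [abs_le] at h1 h2 h3 h5 ⊢
  constructor <;> linarith [h1.1, h1.2, h2.1, h2.2, h3.1, h3.2, h5.1, h5.2]

/-- **The product `b h`.** -/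
theorem geo_right {j : I} (hG : Geo2 A j) {C κ : ℝ} (hκ : 0 < κ) : ∃ CU : ℝ, 0 ≤ CU ∧ ∀ d : ℝ, 0 < d → ∀ L0 : ℝ, ∃ L1 : ℝ, ∀ b h : G,
    L1 ≤ A.gap b j → L1 ≤ A.gap h j → (∀ i, i ≠ j → A.gap h i ≤ C) → κ ≤ |inner ℝ (A.xL j h) (A.xR j b)| →
      b * h ∈ A.Su j L0 d (A.xL j b) ∧ ∀ i, i ≠ j → |A.gap (b * h) i - A.gap b i| ≤ CU := by
  obtain ⟨L, c, hc, hL⟩ := hG C κ hκ
  have hK := Kc_nonneg (A := A) c
  refine ⟨Kc A c + |C|, by positivity, fun d hd L0 => ?_⟩
  -- a level for the left data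
  have hC0 : 0 < A.C0 := lt_of_lt_of_le one_pos A.one_le
  obtain ⟨q, hq0, hq⟩ : ∃ q : ℝ, 0 < q ∧ (A.n j : ℝ) * (A.n j * (A.C0 * q)) / c + A.n j * (A.n j * (A.C0 * q)) ≤ d := by
    have hB : 0 < (A.n j : ℝ) * (A.n j * A.C0) / c + A.n j * (A.n j * A.C0) + 1 := by positivity
    refine ⟨d / ((A.n j : ℝ) * (A.n j * A.C0) / c + A.n j * (A.n j * A.C0) + 1), by positivity, ?_⟩
    have e : (A.n j : ℝ) * (A.n j * (A.C0 * (d / ((A.n j : ℝ) * (A.n j * A.C0) / c + A.n j * (A.n j * A.C0) + 1)))) / c +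
        A.n j * (A.n j * (A.C0 * (d / ((A.n j : ℝ) * (A.n j * A.C0) / c + A.n j * (A.n j * A.C0) + 1)))) =
        ((A.n j : ℝ) * (A.n j * A.C0) / c + A.n j * (A.n j * A.C0)) * d / ((A.n j : ℝ) * (A.n j * A.C0) / c + A.n j * (A.n j * A.C0) + 1) := by
      ring
    rw [e, div_le_iff₀ hB]
    nlinarith
  refine ⟨max (max L (L0 + Kc A c)) (-Real.log q + Kc A c), fun b h hb hh hC' hκ' => ?_⟩
  have hb1 : L ≤ A.gap b j := ((le_max_left _ _).trans (le_max_left _ _)).trans hb
  have hh1 : L ≤ A.gap h j := ((le_max_left _ _).trans (le_max_left _ _)).trans hh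
  have hb2 : L0 + Kc A c ≤ A.gap b j := ((le_max_right _ _).trans (le_max_left _ _)).trans hb
  have hb3 : -Real.log q + Kc A c ≤ A.gap b j := (le_max_right _ _).trans hb
  have h1 := hL b h hb1 hh1 hC' hκ'
  have h2 := fun i => abs_le.1 (gap_mul (A := A) hc h1 i)
  have h3 := A.nonneg h
  have hexp : ∀ t : ℝ, -Real.log q ≤ t → Real.exp (-t) ≤ q := fun t ht => by
    calc Real.exp (-t) ≤ Real.exp (Real.log q) := Real.exp_le_exp.2 (by linarith)
      _ = q := Real.exp_log hq0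
  refine ⟨⟨?_, ?_⟩, fun i hi => ?_⟩
  · linarith [(h2 j).1, h3 j]
  · have h4 := left_data (hs_pos (A := A) j b) (hs_pos (A := A) j h) hc (by simpa only [map_mul] using h1 j) (sum_sq_one (A.uL j (b * h))) (sum_sq_one (A.uL j b))
      (fun a a' => (A.nearL j b a a').trans (mul_le_mul_of_nonneg_left (hexp _ (by linarith)) hC0.le))
      (δ' := A.C0 * q) (fun a a' => by
        have h5 := (A.nearL j (b * h) a a').trans (mul_le_mul_of_nonneg_left (hexp _ (by linarith [(h2 j).1, h3 j])) hC0.le)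
        rwa [map_mul] at h5)
    rw [inner_eq]
    linarith
  · have h4 := hC' i hi
    have h5 := h3 i
    have h6 := le_abs_self C
    rw [abs_le]
    constructor <;> linarith [(h2 i).1, (h2 i).2]

end Geo

end Pool.Agent.Helper13.FQ
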