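import Pool.Agent.Helper3.Lie

/-!
# Project FQ (MP_0f6f3f_an): products of exponentials of complementary subspaces are open in a closed group

`open_three`: if `U₁ + U₂ + U₃` is the Lie algebra of the closed group `K`, then every element of `K` near `1` is `exp X exp Y exp Z`, `X ∈ U₁`, `Y ∈ U₂`, `Z ∈ U₃` small.
-/

set_option autoImplicit false

open Filter Topology NormedSpace

set_option linter.unusedSectionVars false

namespace Pool.Agent.Helper13.FQ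

open Pool.Agent.Helper3.Lie

variable {E : Type*} [NormedRing E] [NormedAlgebra ℝ E] [FiniteDimensional ℝ E] [CompleteSpace E] (S : ClosedGp E)

/-- Small elements of a complement with exponential in the group are zero. -/
theorem small_compl {P : Submodule ℝ E} (hP : IsCompl (lieSub S) P) : ∀ᶠ Q : P in 𝓝 0, exp (Q : E) ∈ S.K → Q = 0 := by
  by_contra hcon
  have hfreq : ∃ᶠ Q : P in 𝓝 0, exp (Q : E) ∈ S.K ∧ Q ≠ 0 := by
    rw [not_eventually] at hcon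
    refine hcon.mono fun Q hQ => ?_
    push Not at hQ
    exact hQ
  obtain ⟨p, hp, hpK⟩ := exists_seq_forall_of_frequently hfreq
  have hsph : ∀ n, (‖p n‖⁻¹ • p n : P) ∈ Metric.sphere (0 : P) 1 := by
    intro n
    rw [mem_sphere_zero_iff_norm, norm_smul, norm_inv, norm_norm, inv_mul_cancel₀]
    exact norm_ne_zero_iff.mpr (hpK n).2
  have : ProperSpace P := FiniteDimensional.proper ℝ P
  obtain ⟨Y, hY, φ, hφ, hlim⟩ := (isCompact_sphere (0 : P) 1).tendsto_subseq hsph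
  have hYl : (Y : E) ∈ lieSub S := by
    apply key S (fun n => (p (φ n) : E)) (fun n => ‖p (φ n)‖⁻¹) (fun n => by positivity)
    · have h1 := (continuous_subtype_val.tendsto (0 : P)).comp (hp.comp hφ.tendsto_atTop)
      exact h1
    · intro n
      exact (hpK (φ n)).1
    · have h1 := (continuous_subtype_val.tendsto Y).comp hlim
      exact h1
  have hY0 : (Y : E) = 0 := by
    have h1 : (Y : E) ∈ lieSub S ⊓ P := ⟨hYl, Y.2⟩
    rw [hP.inf_eq_bot] at h1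
    exact h1
  have hY1 : Y = 0 := Subtype.ext hY0
  rw [hY1] at hY
  simp at hY

/-- The strict derivative of the exponential on a subspace. -/
theorem strict_sub {V : Type*} [NormedAddCommGroup V] [NormedSpace ℝ V] (L : V →L[ℝ] E) :
    HasStrictFDerivAt (fun p : V => exp (L p)) L 0 := by
  have h3 : HasStrictFDerivAt (exp : E → E) ((ContinuousLinearEquiv.refl ℝ E : E ≃L[ℝ] E) : E →L[ℝ] E) (L 0) := by
    rw [map_zero]
    exact hasStrict
  exact h3.comp (0 : V) L.hasStrictFDerivAt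

/-- **Openness.** -/
theorem open_three {U₁ U₂ U₃ : Submodule ℝ E} (hU : U₁ ⊔ U₂ ⊔ U₃ = lieSub S) {A₁ : Set U₁} {A₂ : Set U₂} {A₃ : Set U₃}
    (h₁ : A₁ ∈ 𝓝 0) (h₂ : A₂ ∈ 𝓝 0) (h₃ : A₃ ∈ 𝓝 0) :
    ∀ᶠ k in 𝓝 (1 : E), k ∈ S.K → ∃ X ∈ A₁, ∃ Y ∈ A₂, ∃ Z ∈ A₃, k = exp (X : E) * exp (Y : E) * exp (Z : E) := by
  obtain ⟨P, hP⟩ := (lieSub S).exists_isCompl
  let V : Type _ := ((U₁ × U₂) × U₃) × P
  let l₁ : V →L[ℝ] E := U₁.subtypeL.comp ((ContinuousLinearMap.fst ℝ U₁ U₂).comp ((ContinuousLinearMap.fst ℝ (U₁ × U₂) U₃).comp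
    (ContinuousLinearMap.fst ℝ ((U₁ × U₂) × U₃) P)))
  let l₂ : V →L[ℝ] E := U₂.subtypeL.comp ((ContinuousLinearMap.snd ℝ U₁ U₂).comp ((ContinuousLinearMap.fst ℝ (U₁ × U₂) U₃).comp
    (ContinuousLinearMap.fst ℝ ((U₁ × U₂) × U₃) P)))
  let l₃ : V →L[ℝ] E := U₃.subtypeL.comp ((ContinuousLinearMap.snd ℝ (U₁ × U₂) U₃).comp
    (ContinuousLinearMap.fst ℝ ((U₁ × U₂) × U₃) P))
  let l₄ : V →L[ℝ] E := P.subtypeL.comp (ContinuousLinearMap.snd ℝ ((U₁ × U₂) × U₃) P)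
  let Φ : V → E := fun p => exp (l₁ p) * exp (l₂ p) * exp (l₃ p) * exp (l₄ p)
  have hΦ0 : Φ 0 = 1 := by simp [Φ]
  have hΦ : HasStrictFDerivAt Φ (l₁ + l₂ + l₃ + l₄) 0 := by
    have h4 := (((strict_sub l₁).fun_mul' (strict_sub l₂)).fun_mul' (strict_sub l₃)).fun_mul' (strict_sub l₄)
    refine h4.congr_fderiv ?_
    apply ContinuousLinearMap.ext
    intro p
    simp
    abel
  have hsurj : (l₁ + l₂ + l₃ + l₄ : V →L[ℝ] E).range = ⊤ := by
    rw [eq_top_iff]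
    intro x _
    have hx : x ∈ lieSub S ⊔ P := by
      rw [hP.sup_eq_top]
      trivial
    obtain ⟨y, hy, q, hq, e1⟩ := Submodule.mem_sup.1 hx
    rw [← hU] at hy
    obtain ⟨y', hy', z, hz, e2⟩ := Submodule.mem_sup.1 hy
    obtain ⟨v, hv, w, hw, e3⟩ := Submodule.mem_sup.1 hy'
    refine ⟨(((⟨v, hv⟩, ⟨w, hw⟩), ⟨z, hz⟩), ⟨q, hq⟩), ?_⟩
    rw [← e1, ← e2, ← e3]
    rfl
  have hmap : map Φ (𝓝 0) = 𝓝 (1 : E) := by
    rw [← hΦ0]
    exact hΦ.map_nhds_eq_of_surj hsurj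
  have hev : ∀ᶠ p in 𝓝 (0 : V), (p.1.1.1 ∈ A₁ ∧ p.1.1.2 ∈ A₂ ∧ p.1.2 ∈ A₃) ∧ (exp (p.2 : E) ∈ S.K → p.2 = 0) := by
    have c4 : Tendsto (fun p : V => p.2) (𝓝 0) (𝓝 0) := continuous_snd.tendsto (0 : V)
    have c1 : Tendsto (fun p : V => p.1.1.1) (𝓝 0) (𝓝 0) := ((continuous_fst.comp continuous_fst).comp continuous_fst).tendsto (0 : V)
    have c2 : Tendsto (fun p : V => p.1.1.2) (𝓝 0) (𝓝 0) := ((continuous_snd.comp continuous_fst).comp continuous_fst).tendsto (0 : V)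
    have c3 : Tendsto (fun p : V => p.1.2) (𝓝 0) (𝓝 0) := (continuous_snd.comp continuous_fst).tendsto (0 : V)
    exact ((c1.eventually h₁).and ((c2.eventually h₂).and (c3.eventually h₃))).and (c4.eventually (small_compl S hP))
  have h5 : ∀ᶠ k in 𝓝 (1 : E), ∃ p : V, ((p.1.1.1 ∈ A₁ ∧ p.1.1.2 ∈ A₂ ∧ p.1.2 ∈ A₃) ∧ (exp (p.2 : E) ∈ S.K → p.2 = 0)) ∧ Φ p = k := by
    rw [← hmap, eventually_map]
    filter_upwards [hev] with p hp
    exact ⟨p, hp, rfl⟩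
  have hexp : ∀ X : E, X ∈ lieSub S → exp X ∈ S.K := fun X hX => by
    have := hX 1
    rwa [one_smul] at this
  filter_upwards [h5] with k ⟨p, ⟨⟨a1, a2, a3⟩, h6⟩, h7⟩ hk
  have m1 : (p.1.1.1 : E) ∈ lieSub S := hU ▸ Submodule.mem_sup_left (Submodule.mem_sup_left p.1.1.1.2)
  have m2 : (p.1.1.2 : E) ∈ lieSub S := hU ▸ Submodule.mem_sup_left (Submodule.mem_sup_right p.1.1.2.2)
  have m3 : (p.1.2 : E) ∈ lieSub S := hU ▸ Submodule.mem_sup_right p.1.2.2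
  have h8 : exp (p.2 : E) ∈ S.K := by
    have h9 : exp (p.2 : E) = exp (-(p.1.2 : E)) * (exp (-(p.1.1.2 : E)) * (exp (-(p.1.1.1 : E)) * k)) := by
      rw [← h7]
      show _ = exp (-(p.1.2 : E)) * (exp (-(p.1.1.2 : E)) * (exp (-(p.1.1.1 : E)) *
        (exp (p.1.1.1 : E) * exp (p.1.1.2 : E) * exp (p.1.2 : E) * exp (p.2 : E))))
      rw [mul_assoc (exp (p.1.1.1 : E) * exp (p.1.1.2 : E)), mul_assoc (exp (p.1.1.1 : E)), ← mul_assoc (exp (-(p.1.1.1 : E))), exp_neg_mul,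
        one_mul, ← mul_assoc (exp (-(p.1.1.2 : E))), exp_neg_mul, one_mul, ← mul_assoc, exp_neg_mul, one_mul]
    rw [h9]
    exact S.K.mul_mem (exp_neg_mem S (hexp _ m3)) (S.K.mul_mem (exp_neg_mem S (hexp _ m2)) (S.K.mul_mem (exp_neg_mem S (hexp _ m1)) hk))
  have h9 := h6 h8
  refine ⟨p.1.1.1, a1, p.1.1.2, a2, p.1.2, a3, ?_⟩
  rw [← h7]
  show exp (p.1.1.1 : E) * exp (p.1.1.2 : E) * exp (p.1.2 : E) * exp (p.2 : E) = _
  rw [h9, Submodule.coe_zero, exp_zero, mul_one]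

end Pool.Agent.Helper13.FQ
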